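import Pool.Agent.H72.CH.Targets

/-!
Board chl_modules (MP_6ab439_lc), row EXF.
-/

set_option autoImplicit false

namespace Pool.Agent.H27.CH

open Pool.Agent.H68.BP Pool.Agent.H58.SF Pool.Agent.H53.NR Pool.Agent.H72.CH
open Pool.Agent.H44.KR (TpOn)

theorem extend_map {Y V : Type} {m : ℕ} {al : Y → Y → ℕ} (hal : PLev m al)
    (hsep : ∀ x y, al x y = m → x = y) {lv : V → V → ℕ} (hlv : PLev m lv) {X : Set Y}
    (hne : X.Nonempty) {g : Y → V} (hg : ∀ x ∈ X, ∀ y ∈ X, al x y ≤ lv (g x) (g y)) :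
    ∃ h : Y → V, (∀ x ∈ X, h x = g x) ∧ ∀ x y, al x y ≤ lv (h x) (h y) := by
  classical
  obtain ⟨k, hk⟩ : ∃ k : Y → ℕ, ∀ w, k w = Nat.findGreatest (fun j => ∃ x ∈ X, j ≤ al x w) m :=
    ⟨_, fun _ => rfl⟩
  have hk1 : ∀ w, ∃ x, x ∈ X ∧ k w ≤ al x w := by
    intro w
    have h0 : ∃ x ∈ X, 0 ≤ al x w := by
      obtain ⟨x, hx⟩ := hne
      exact ⟨x, hx, Nat.zero_le _⟩
    have h := Nat.findGreatest_spec (P := fun j => ∃ x ∈ X, j ≤ al x w) (Nat.zero_le m) h0
    rw [← hk w] at h
    obtain ⟨x, hx, h⟩ := h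
    exact ⟨x, hx, h⟩
  have hk2 : ∀ w, ∀ x ∈ X, al x w ≤ k w := by
    intro w x hx
    rw [hk w]
    exact Nat.le_findGreatest (hal.le x w) ⟨x, hx, le_refl _⟩
  obtain ⟨Q, hQ⟩ : ∃ Q : Y → Y → Prop, ∀ w, Q w = fun x => x ∈ X ∧ k w ≤ al x w :=
    ⟨_, fun _ => rfl⟩
  have hex : ∀ w, ∃ x, Q w x := by
    intro w
    rw [hQ w]
    exact hk1 w
  obtain ⟨r, hr⟩ : ∃ r : Y → Y, ∀ w, r w = @Classical.epsilon Y ⟨w⟩ (Q w) := ⟨_, fun _ => rfl⟩
  have hrQ : ∀ w, Q w (r w) := by
    intro w
    rw [hr w]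
    exact @Classical.epsilon_spec Y (Q w) (hex w)
  have hrX : ∀ w, r w ∈ X := by
    intro w
    have := hrQ w
    rw [hQ w] at this
    exact this.1
  have hrk : ∀ w, k w ≤ al (r w) w := by
    intro w
    have := hrQ w
    rw [hQ w] at this
    exact this.2
  have hrid : ∀ w ∈ X, r w = w := by
    intro w hw
    have h1 := hk2 w w hw
    rw [hal.self] at h1
    have h2 := hrk w
    have h3 := hal.le (r w) w
    exact hsep _ _ (by omega)
  have key : ∀ w w', k w < al w w' → r w = r w' := by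
    intro w w' hlt
    have e1 : ∀ x ∈ X, al x w = al x w' := by
      intro x hx
      have h1 := hk2 w x hx
      have h2 := hal.ult x w w'
      have h3 := hal.ult x w' w
      have h4 := hal.sym w w'
      omega
    have e2 : k w = k w' := by
      rw [hk w, hk w']
      congr 1
      funext j
      apply propext
      constructor
      · rintro ⟨x, hx, h⟩
        exact ⟨x, hx, by rw [← e1 x hx]; exact h⟩
      · rintro ⟨x, hx, h⟩
        exact ⟨x, hx, by rw [e1 x hx]; exact h⟩
    have e3 : Q w = Q w' := by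
      rw [hQ w, hQ w']
      funext x
      apply propext
      constructor
      · rintro ⟨hx, h⟩
        exact ⟨hx, by rw [← e1 x hx, ← e2]; exact h⟩
      · rintro ⟨hx, h⟩
        exact ⟨hx, by rw [e1 x hx, e2]; exact h⟩
    rw [hr w, hr w', e3]
  refine ⟨fun w => g (r w), fun x hx => congrArg g (hrid x hx), fun x y => ?_⟩
  change al x y ≤ lv (g (r x)) (g (r y))
  by_cases h1 : k x < al x y
  · rw [key x y h1, hlv.self]
    exact hal.le x y
  · by_cases h2 : k y < al y x
    · rw [key y x h2, hlv.self]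
      exact hal.le x y
    · refine le_trans ?_ (hg (r x) (hrX x) (r y) (hrX y))
      have h3 := hrk x
      have h4 := hrk y
      have h5 := hal.sym x y
      have h6 := hal.ult (r x) x y
      have h7 := hal.ult (r x) y (r y)
      have h8 := hal.sym (r y) y
      omega

theorem pf_EXF : T_EXF := by
  classical
  intro V ρ 𝔹 m lv hHV hExa W _ s X g Λ C h1 h2 h3
  have hfin : Finite (Fl s) := inferInstance
  obtain ⟨al, hal⟩ : ∃ al : Fl s → Fl s → ℕ, ∀ w w',
      al w w' = Nat.findGreatest (fun j => Agr j w.1 w'.1) m := ⟨_, fun _ _ => rfl⟩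
  have h0 : ∀ w w' : Fl s, Agr 0 w.1 w'.1 := fun w w' i hi => absurd hi (Nat.not_lt_zero _)
  have hspec : ∀ w w', Agr (al w w') w.1 w'.1 := by
    intro w w'
    rw [hal w w']
    exact Nat.findGreatest_spec (P := fun j => Agr j w.1 w'.1) (Nat.zero_le m) (h0 w w')
  have hle : ∀ w w', al w w' ≤ m := by
    intro w w'
    rw [hal w w']
    exact Nat.findGreatest_le m
  have hmono : ∀ (w w' : Fl s) (i j : ℕ), i ≤ j → Agr j w.1 w'.1 → Agr i w.1 w'.1 :=
    fun w w' i j hij h a ha => h a (lt_of_lt_of_le ha hij)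
  have hiff : ∀ (w w' : Fl s) (j : ℕ), j ≤ m → (j ≤ al w w' ↔ Agr j w.1 w'.1) := by
    intro w w' j hj
    constructor
    · intro h
      exact hmono w w' j _ h (hspec w w')
    · intro h
      rw [hal w w']
      exact Nat.le_findGreatest hj h
  have hpl : PLev m al := by
    refine ⟨hle, fun x => ?_, fun x y => ?_, fun x y z => ?_⟩
    · exact le_antisymm (hle x x) ((hiff x x m (le_refl m)).2 fun i _ => rfl)
    · refine le_antisymm ?_ ?_
      · exact (hiff y x _ (hle x y)).2 fun i hi => (hspec x y i hi).symm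
      · exact (hiff x y _ (hle y x)).2 fun i hi => (hspec y x i hi).symm
    · refine (hiff x z _ ((min_le_left _ _).trans (hle x y))).2 fun i hi => ?_
      rw [hspec x y i (lt_of_lt_of_le hi (min_le_left _ _)),
        hspec y z i (lt_of_lt_of_le hi (min_le_right _ _))]
  have hsep : ∀ x y : Fl s, al x y = m → x = y := by
    intro x y h
    apply Subtype.ext
    funext i
    have := hspec x y
    rw [h] at this
    exact this i i.2
  have hlv := hHV.lev.pl
  obtain ⟨h, hhX, hh⟩ : ∃ h : Fl s → V, (∀ x ∈ X, h x = g x) ∧ ∀ x y, al x y ≤ lv (h x) (h y) := by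
    rcases X.eq_empty_or_nonempty with hX | hX
    · obtain ⟨v⟩ := hHV.ne
      refine ⟨fun _ => v, fun x hx => ?_, fun x y => ?_⟩
      · rw [hX] at hx
        exact absurd hx (Set.notMem_empty x)
      · change al x y ≤ lv v v
        rw [hlv.self]
        exact hle x y
    · exact extend_map hpl hsep hlv hX fun x hx y hy => h1 x hx y hy _ (hle x y) (hspec x y)
  obtain ⟨g', hg', hTp⟩ := hExa (Fl s) al Λ C h hpl hh (by
    intro a x hx y hy
    rw [hhX x (h2 a hx), hhX y (h2 a hy)]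
    refine le_antisymm ?_ ?_
    · exact (hiff x y _ (hlv.le _ _)).2 (h3 a x hx y hy _ (hlv.le _ _) (le_refl _))
    · exact h1 x (h2 a hx) y (h2 a hy) _ (hle x y) (hspec x y))
  refine ⟨g', fun w w' j hj => ?_, fun a => ?_⟩
  · rw [hg' w w']
    exact hiff w w' j hj
  · obtain ⟨t1, t2⟩ := hTp a
    refine ⟨fun w hw w' hw' => ?_, fun l z hz => ?_⟩
    · rw [← hhX w (h2 a hw), ← hhX w' (h2 a hw')]
      exact t1 w hw w' hw'
    · have e : (fun i => g (z i)) = fun i => h (z i) := by
        funext i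
        exact (hhX _ (h2 a (hz i))).symm
      rw [e]
      exact t2 l z hz

end Pool.Agent.H27.CH
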