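import Pool.Agent.H32.CH.Targets

/-! MP_aaa807_co, module SEL: the set of flips. -/

set_option autoImplicit false
set_option linter.unusedSectionVars false

namespace Pool.Agent.H27.CH.SEL

open Finset
open scoped Classical
open Pool.Agent.H32.CH

/-- the enumerations of the problematic components -/
theorem enum_step (h4 : T_N7) (h10 : T_ENC) (h14 : T_DC) {V : Type} [Fintype V]
    (G : SimpleGraph V) (A : Finset V) (hn7 : NP7 G) (Z : Finset V) (hZ : Prob G A Z)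
    (hT : ∃ f ∈ Z, ∀ z ∈ Z, TT G A z → z = f ∨ G.Adj f z) :
    ∃ g : ℕ → V, Enum G Z Z.card g ∧ G.Adj (g 0) (g (Z.card - 1)) ∧ 13 ≤ Z.card ∧
      ∀ j < 10, ¬ TT G A (g (2 + j)) := by
  obtain ⟨f, hf, hft⟩ := hT
  have h13 : 13 ≤ Z.card := h4 V G A Z hn7 hZ
  obtain ⟨-, g, hg, hg0, hgl⟩ := h10 V G Z f hZ.1.2.1
    (fun y hy => by rw [← h14 V G A Z y hZ.1 hy]; exact hZ.2.1 y hy) hf
  refine ⟨g, hg, hgl, h13, ?_⟩
  intro j hj hTT
  have hmem : g (2 + j) ∈ Z := by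
    rw [hg.2.1]
    exact mem_image_of_mem _ (mem_range.2 (by omega))
  rcases hft _ hmem hTT with e | e
  · rw [← hg0] at e
    have := hg.1 (2 + j) (by omega) 0 (by omega) e
    omega
  · rw [← hg0] at e
    have := hg.2.2.2 0 (2 + j) (by omega) (by omega) e
    omega

/-- the systems of windows of the components with at least six vertices -/
theorem sys_step (h1 : T_WP) (h2 : T_WC) (h3 : T_WX) (h13 : T_M1) {V : Type} [Fintype V]
    (G : SimpleGraph V) (A : Finset V) (hd : Deg4 G) (hE : Ext G A) (F : SimpleGraph V)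
    (g : {Z : Finset V // Prob G A Z} → ℕ → V)
    (hg : ∀ Z : {Z : Finset V // Prob G A Z}, Enum G Z.1 Z.1.card (g Z) ∧
      G.Adj (g Z 0) (g Z (Z.1.card - 1)) ∧ 13 ≤ Z.1.card)
    (hF : ∀ Z : {Z : Finset V // Prob G A Z}, ∃ j k : Fin 10, ((k : ℕ) = j + 1 ∨ (k : ℕ) = j + 5 ∨
      (k : ℕ) = j + 6 ∨ (k : ℕ) = j + 7) ∧ F.Adj (g Z (2 + (j : ℕ))) (g Z (2 + (k : ℕ))))
    (C : Finset V) (hC : Comp G A C) (hC6 : 6 ≤ C.card) :
    ∃ (q : ℕ) (w : Fin q → Finset V), Win G A C w ∧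
      ∀ R, Trv w R → (∀ x ∈ R, ∀ y ∈ R, ¬ F.Adj x y) → ∃ S, S ⊆ R ∧ Good G C S := by
  by_cases hall : ∀ x ∈ C, dg G A x = 2
  · by_cases hmod : C.card % 6 = 1
    · have hP : Prob G A C := ⟨hC, hall, hmod⟩
      obtain ⟨hen, hlast, hcard⟩ := hg ⟨C, hP⟩
      obtain ⟨j, k, hjk, hadj⟩ := hF ⟨C, hP⟩
      have hk := k.2
      have key : ∀ d : ℕ, (k : ℕ) = (j : ℕ) + d → (d = 1 ∨ d = 5 ∨ d = 6 ∨ d = 7) →
          ∃ (q : ℕ) (w : Fin q → Finset V), Win G A C w ∧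
            ∀ R, Trv w R → (∀ x ∈ R, ∀ y ∈ R, ¬ F.Adj x y) → ∃ S, S ⊆ R ∧ Good G C S := by
        intro d hkd hd'
        obtain ⟨q, w, hw, hR⟩ := h3 V G A C (g ⟨C, hP⟩) hC hall hcard hmod hen hlast
          (2 + (j : ℕ)) d hd' (by simp only at hcard; omega)
        refine ⟨q, w, hw, fun R hRt hRi => hR R hRt ?_⟩
        rintro ⟨ha, hb⟩
        refine hRi _ ha _ hb ?_
        have e : 2 + (j : ℕ) + d = 2 + (k : ℕ) := by omega
        rw [e]
        exact hadj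
      rcases hjk with e | e | e | e
      · exact key 1 e (Or.inl rfl)
      · exact key 5 e (Or.inr (Or.inl rfl))
      · exact key 6 e (Or.inr (Or.inr (Or.inl rfl)))
      · exact key 7 e (Or.inr (Or.inr (Or.inr rfl)))
    · obtain ⟨q, w, hw, hR⟩ := h2 V G A C hC hall hC6 hmod
      exact ⟨q, w, hw, fun R hRt _ => hR R hRt⟩
  · have hex : ∃ x ∈ C, dg G A x ≠ 2 := by
      by_contra hne
      apply hall
      intro x hx
      by_contra hx2
      exact hne ⟨x, hx, hx2⟩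
    obtain ⟨q, w, hw, hR⟩ := h1 V G A C hC (fun x hx => (h13 V G A hd hE.1).1 x (hC.1 hx)) hex hC6
    exact ⟨q, w, hw, fun R hRt _ => hR R hRt⟩

/-- gluing the systems of windows -/
theorem glue_step (h9 : T_FSW) (h11 : T_CX) (h12 : T_CU) {V : Type} [Fintype V]
    (G : SimpleGraph V) (A : Finset V) (F : SimpleGraph V) (hF2 : ∀ v, dg F univ v ≤ 2)
    (hFp : Peel F)
    (hsys : ∀ C : {C : Finset V // Comp G A C ∧ 6 ≤ C.card},
      ∃ (q : ℕ) (w : Fin q → Finset V), Win G A C.1 w ∧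
      ∀ R, Trv w R → (∀ x ∈ R, ∀ y ∈ R, ¬ F.Adj x y) → ∃ S, S ⊆ R ∧ Good G C.1 S) :
    ∃ S : Finset V, S ⊆ A ∧ (∀ x ∈ S, dg G A x = 2) ∧
      (∀ x ∈ S, ∀ y ∈ S, ¬ G.Adj x y) ∧ (∀ K, Comp G (A \ S) K → K.card ≤ 5) ∧
      (∀ x ∈ S, ∀ y ∈ S, ¬ F.Adj x y) := by
  choose q w hw hR using hsys
  obtain ⟨R, hRt, hRi⟩ := h9 V (Σ C : {C : Finset V // Comp G A C ∧ 6 ≤ C.card}, Fin (q C)) F
    (fun i => w i.1 i.2) hF2 hFp (fun i => (hw i.1).1 i.2) (by
      rintro ⟨C, a⟩ ⟨C', b⟩ hne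
      by_cases hCC : C = C'
      · subst hCC
        apply (hw C).2.2.2 a b
        rintro rfl
        exact hne rfl
      · rw [disjoint_left]
        intro x hx hy
        apply hCC
        apply Subtype.ext
        exact h12 V G A C.1 C'.1 x C.2.1 C'.2.1 ((hw C).2.1 a hx) ((hw C').2.1 b hy))
  have hsub : ∀ C : {C : Finset V // Comp G A C ∧ 6 ≤ C.card},
      ∃ S, S ⊆ R.filter (fun x => ∃ i : (Σ C : {C : Finset V // Comp G A C ∧ 6 ≤ C.card}, Fin (q C)),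
        x ∈ w i.1 i.2) ∧ Good G C.1 S := by
    intro C
    apply hR C
    · intro i
      have e : R.filter (fun x => ∃ i : (Σ C : {C : Finset V // Comp G A C ∧ 6 ≤ C.card},
          Fin (q C)), x ∈ w i.1 i.2) ∩ w C i = R ∩ w C i := by
        ext x
        simp only [mem_inter, mem_filter]
        constructor
        · rintro ⟨⟨a, -⟩, b⟩
          exact ⟨a, b⟩
        · rintro ⟨a, b⟩
          exact ⟨⟨a, ⟨C, i⟩, b⟩, b⟩
      rw [e]
      exact hRt ⟨C, i⟩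
    · intro x hx y hy
      exact hRi x (mem_filter.1 hx).1 y (mem_filter.1 hy).1
  choose S hSR hSg using hsub
  have hmemS : ∀ x, x ∈ (univ : Finset {C : Finset V // Comp G A C ∧ 6 ≤ C.card}).biUnion S ↔
      ∃ C : {C : Finset V // Comp G A C ∧ 6 ≤ C.card}, x ∈ S C := by
    intro x
    simp only [mem_biUnion, mem_univ, true_and]
  have hSA : (univ : Finset {C : Finset V // Comp G A C ∧ 6 ≤ C.card}).biUnion S ⊆ A := by
    intro x hx
    obtain ⟨C, hxC⟩ := (hmemS x).1 hx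
    exact C.2.1.1 ((hSg C).1 hxC)
  refine ⟨(univ : Finset {C : Finset V // Comp G A C ∧ 6 ≤ C.card}).biUnion S, hSA, ?_, ?_, ?_, ?_⟩
  · intro x hx
    obtain ⟨C, hxC⟩ := (hmemS x).1 hx
    obtain ⟨-, i, hi⟩ := mem_filter.1 (hSR C hxC)
    exact (hw i.1).2.2.1 i.2 x hi
  · intro x hx y hy hadj
    have hyA := hSA hy
    obtain ⟨C, hxC⟩ := (hmemS x).1 hx
    obtain ⟨C', hyC'⟩ := (hmemS y).1 hy
    have hyC : y ∈ C.1 := C.2.1.2.2 x ((hSg C).1 hxC) y hyA hadj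
    have hCC : C = C' := Subtype.ext (h12 V G A C.1 C'.1 y C.2.1 C'.2.1 hyC ((hSg C').1 hyC'))
    subst hCC
    exact (hSg C).2.1 x hxC y hyC' hadj
  · intro K hK
    obtain ⟨x, hxK⟩ := hK.2.1.1
    have hxA : x ∈ A := (mem_sdiff.1 (hK.1 hxK)).1
    obtain ⟨C, hC, hxC⟩ := h11 V G A x hxA
    have hKC : K ∩ C = K := by
      apply hK.2.1.2 (K ∩ C) inter_subset_left ⟨x, mem_inter.2 ⟨hxK, hxC⟩⟩
      intro a ha b hb hab
      rw [mem_inter] at ha ⊢
      exact ⟨hb, hC.2.2 a ha.2 b (mem_sdiff.1 (hK.1 hb)).1 hab⟩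
    have hKC' : K ⊆ C := by
      intro a ha
      rw [← hKC] at ha
      exact (mem_inter.1 ha).2
    by_cases h6 : 6 ≤ C.card
    · apply (hSg ⟨C, hC, h6⟩).2.2 K
      refine ⟨?_, hK.2.1, ?_⟩
      · intro a ha
        refine mem_sdiff.2 ⟨hKC' ha, ?_⟩
        intro haS
        exact (mem_sdiff.1 (hK.1 ha)).2 ((hmemS a).2 ⟨_, haS⟩)
      · intro a ha b hb hab
        obtain ⟨hbC, hbS⟩ := mem_sdiff.1 hb
        apply hK.2.2 a ha b ?_ hab
        refine mem_sdiff.2 ⟨hC.1 hbC, ?_⟩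
        intro hbS'
        obtain ⟨C', hbC'⟩ := (hmemS b).1 hbS'
        have hCC : (⟨C, hC, h6⟩ : {C : Finset V // Comp G A C ∧ 6 ≤ C.card}) = C' :=
          Subtype.ext (h12 V G A C C'.1 b hC C'.2.1 hbC ((hSg C').1 hbC'))
        subst hCC
        exact hbS hbC'
    · have := card_le_card hKC'
      omega
  · intro x hx y hy
    obtain ⟨C, hxC⟩ := (hmemS x).1 hx
    obtain ⟨C', hyC'⟩ := (hmemS y).1 hy
    exact hRi x (mem_filter.1 (hSR C hxC)).1 y (mem_filter.1 (hSR C' hyC')).1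

theorem pf_SEL (h1 : T_WP) (h2 : T_WC) (h3 : T_WX) (h4 : T_N7) (h5 : T_D1) (h6 : T_D2)
    (h7 : T_D3) (h8 : T_GT) (h9 : T_FSW) (h10 : T_ENC) (h11 : T_CX) (h12 : T_CU) (h13 : T_M1)
    (h14 : T_DC) : T_SEL := by
  intro V _ G A hd htf hn5 hn7 hE hT
  have henum : ∀ Z : {Z : Finset V // Prob G A Z}, ∃ g : ℕ → V, Enum G Z.1 Z.1.card g ∧
      G.Adj (g 0) (g (Z.1.card - 1)) ∧ 13 ≤ Z.1.card ∧ ∀ j < 10, ¬ TT G A (g (2 + j)) :=
    fun Z => enum_step h4 h10 h14 G A hn7 Z.1 Z.2 (hT Z.1 Z.2)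
  choose g hg1 hg2 hg3 hg4 using henum
  have hgmem : ∀ (Z : {Z : Finset V // Prob G A Z}) (j : Fin 10), g Z (2 + (j : ℕ)) ∈ Z.1 := by
    intro Z j
    have hj := j.2
    have hc := hg3 Z
    have e := (hg1 Z).2.1
    have : g Z (2 + (j : ℕ)) ∈ (range Z.1.card).image (g Z) :=
      mem_image_of_mem _ (mem_range.2 (by omega))
    rw [← e] at this
    exact this
  have hinj : Function.Injective
      (fun x : {Z : Finset V // Prob G A Z} × Fin 10 => g x.1 (2 + (x.2 : ℕ))) := by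
    rintro ⟨Z, j⟩ ⟨Z', j'⟩ he
    dsimp only at he
    have hm := hgmem Z j
    have hm' := hgmem Z' j'
    rw [← he] at hm'
    have hZZ : Z = Z' := Subtype.ext (h12 V G A Z.1 Z'.1 _ Z.2.1 Z'.2.1 hm hm')
    subst hZZ
    have hj := j.2
    have hj' := j'.2
    have hc := hg3 Z
    have := (hg1 Z).1 (2 + (j : ℕ)) (by omega) (2 + (j' : ℕ)) (by omega) he
    have hjj : j = j' := Fin.ext (by omega)
    rw [hjj]
  obtain ⟨M, F, -, hDFM, hMT, hM1, hF2, hFp, hFw⟩ := h8 V {Z : Finset V // Prob G A Z} (DG G A)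
    (univ.filter (fun v => TT G A v))
    (fun x => g x.1 (2 + (x.2 : ℕ)))
    (h5 V G A hd htf hE)
    (by
      intro t ht
      by_contra hlt
      rw [not_le] at hlt
      obtain ⟨y, hy, z, hz, hyz⟩ := one_lt_card.1 hlt
      rw [mem_nb] at hy hz
      exact hyz (h6 V G A hd htf hn5 hE t y z (mem_filter.1 ht).2 (mem_filter.1 hy.1).2
        (mem_filter.1 hz.1).2 hy.2 hz.2))
    (by
      intro v hv hv2
      obtain ⟨a, b, hab, -, -, hva, hvb, -⟩ := dg_two hv2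
      have hvT : ¬ TT G A v := fun h => hv (mem_filter.2 ⟨mem_univ _, h⟩)
      have hpos : 0 < dg (DG G A) (univ.filter (fun v => TT G A v))ᶜ v := by
        rw [dg_pos]
        rcases h7 V G A hd htf hn5 hn7 hE v a b hvT hab hva hvb with h | h
        · exact ⟨a, mem_compl.2 (fun h' => h (mem_filter.1 h').2), hva⟩
        · exact ⟨b, mem_compl.2 (fun h' => h (mem_filter.1 h').2), hvb⟩
      omega)
    hinj
    (by
      rintro ⟨Z, j⟩ h
      exact hg4 Z j j.2 (mem_filter.1 h).2)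
  obtain ⟨S, hSA, hS2, hSi, hSK, hSF⟩ := glue_step h9 h11 h12 G A F hF2 hFp
    (fun C => sys_step h1 h2 h3 h13 G A hd hE F g (fun Z => ⟨hg1 Z, hg2 Z, hg3 Z⟩) hFw C.1 C.2.1
      C.2.2)
  refine ⟨S, M, hSA, hS2, hSi, hSK, ?_, ?_, hM1⟩
  · intro x hx y hy hxy
    have := hDFM hxy
    rw [SimpleGraph.sup_adj] at this
    rcases this with h | h
    · exact absurd h (hSF x hx y hy)
    · exact h
  · intro x y hxy
    obtain ⟨a, b⟩ := hMT x y hxy
    exact ⟨fun h => a (mem_filter.2 ⟨mem_univ _, h⟩), fun h => b (mem_filter.2 ⟨mem_univ _, h⟩)⟩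

end Pool.Agent.H27.CH.SEL
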