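import Pool.Agent.H32.CH.Targets

/-! MP_aaa807_co, module W1. -/

set_option autoImplicit false
set_option linter.unusedSectionVars false

namespace Pool.Agent.H27.CH.W1

open Finset
open Pool.Agent.H32.CH

theorem pf_W1 (h : T_COR) : T_W1 := by
  classical
  intro m hm
  refine ⟨2 * m, fun i => {3 * (i : ℕ), 3 * (i : ℕ) + 1, 3 * (i : ℕ) + 2}, ⟨?_, ?_, ?_⟩, ?_⟩
  · intro i
    rw [card_insert_of_notMem, card_pair]
    · omega
    · simp only [mem_insert, mem_singleton]
      omega
  · intro i x hx
    have := i.2
    simp only [mem_insert, mem_singleton] at hx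
    rw [mem_range]
    omega
  · intro i j hij
    have hne : (i : ℕ) ≠ (j : ℕ) := fun e => hij (Fin.ext e)
    rw [disjoint_left]
    intro x hx hy
    simp only [mem_insert, mem_singleton] at hx hy
    omega
  · intro r hr hw hj
    obtain ⟨j, hjm, hjr⟩ := hj
    have hP : ∀ i : ℕ, ∃ p : ℕ, i < 2 * m → p ∈ r ∧ 3 * i ≤ p ∧ p ≤ 3 * i + 2 := by
      intro i
      by_cases hi : i < 2 * m
      · obtain ⟨p, hp⟩ := card_eq_one.1 (hw ⟨i, hi⟩)
        have hp' : p ∈ r ∩ ({3 * i, 3 * i + 1, 3 * i + 2} : Finset ℕ) := by
          have : p ∈ ({p} : Finset ℕ) := mem_singleton_self p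
          rw [← hp] at this
          simpa using this
        rw [mem_inter] at hp'
        obtain ⟨h1, h2⟩ := hp'
        simp only [mem_insert, mem_singleton] at h2
        exact ⟨p, fun _ => ⟨h1, by omega, by omega⟩⟩
      · exact ⟨0, fun h => absurd h hi⟩
    choose P hP using hP
    have hP1 : ∀ i, i < 2 * m → P i ∈ r := fun i hi => (hP i hi).1
    have hP2 : ∀ i, i < 2 * m → 3 * i ≤ P i := fun i hi => (hP i hi).2.1
    have hP3 : ∀ i, i < 2 * m → P i ≤ 3 * i + 2 := fun i hi => (hP i hi).2.2
    have hnj : P (2 * j + 1) ≠ P (2 * j) + 1 := by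
      intro e
      have a1 := hP2 (2 * j + 1) (by omega)
      have a2 := hP3 (2 * j) (by omega)
      have b1 := hP1 (2 * j + 1) (by omega)
      have b2 := hP1 (2 * j) (by omega)
      have e1 : P (2 * j) = 6 * j + 2 := by omega
      have e2 : P (2 * j + 1) = 6 * j + 3 := by omega
      rw [e1] at b2
      rw [e2] at b1
      rcases hjr with hjr | hjr
      · exact hjr b2
      · exact hjr b1
    obtain ⟨s, hs, hg⟩ := h (6 * m + 1) (2 * m) P
      (fun i => (i % 2 = 1 ∧ i < 2 * j) ∨ (i % 2 = 0 ∧ 2 * j + 2 ≤ i)) (by omega)
      (by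
        intro i hi
        have := hP3 i hi
        omega)
      (by
        intro i hi
        have := hP3 i (by omega)
        have := hP2 i (by omega)
        have := hP3 (i + 1) hi
        have := hP2 (i + 1) hi
        omega)
      (by
        have := hP3 0 (by omega)
        have := hP2 (2 * m - 1) (by omega)
        omega)
      (by
        intro i hi
        omega)
      (by
        omega)
      (by
        intro i hi he
        have : i ≠ 2 * j := by
          rintro rfl
          exact hnj he
        omega)
      (by
        intro he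
        have := hP3 (2 * m - 1) (by omega)
        omega)
      (by
        intro i hi _ he
        have := hP3 i (by omega)
        have := hP2 i (by omega)
        have := hP3 (i + 1) (by omega)
        have := hP2 (i + 1) (by omega)
        have := hP3 (i + 2) (by omega)
        have := hP2 (i + 2) (by omega)
        omega)
      (by
        intro hO
        omega)
      (by
        intro hO
        omega)
    refine ⟨s, ?_, hg⟩
    intro x hx
    obtain ⟨i, hi, rfl⟩ := mem_image.1 (hs hx)
    exact hP1 i (mem_range.1 hi)

end Pool.Agent.H27.CH.W1
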